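import Pool.Agent.MP_4168de_an.W.Main

/-! The coincidence rank conjecture for homological Pisot substitutions. -/

namespace Pool.Agent.Results.MP_4168de_an.CoincidenceRank

open MeasureTheory Pool.Agent.MP_4168de_an

theorem result (n : ℕ) (σ : Fin n → List (Fin n)) (M : Matrix (Fin n) (Fin n) ℤ)
    (hM : ∀ i j, M i j = (σ j).count i) (hprim : M.IsPrimitive)
    (c : ℝ) (hc : 1 < c) (ℓ : Fin n → ℝ) (hℓ : ∀ i, 0 < ℓ i)
    (heig : ∀ j, ∑ i, ℓ i * M i j = c * ℓ j)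
    (hint : IsIntegral ℤ c) (hpisot : ∀ z ∈ (minpoly ℚ c).aroots ℂ, z ≠ c → ‖z‖ < 1)
    (T₀ : Patch (Fin n)) (htil : IsTiling ℓ T₀) (hfix : ∃ k, 0 < k ∧ (inflate σ ℓ c)^[k] T₀ = T₀)
    (hmin : ∀ T ∈ hull T₀, T₀ ∈ hull T)
    (hrank : cechRank (hull T₀) = (minpoly ℚ c).natDegree) :
    (minpoly ℤ c).coeff 0 ≠ 0 ∧ ∃ r k : ℕ, (r : ℤ) ∣ (minpoly ℤ c).coeff 0 ^ k ∧
      (∀ T ∈ hull T₀, (r : ℕ∞) ≤ (fibre (hull T₀) T).encard) ∧
      (∃ T ∈ hull T₀, (fibre (hull T₀) T).encard = r) ∧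
      ∀ (μ : Measure (Patch (Fin n))) [IsProbabilityMeasure μ], μ (hull T₀)ᶜ = 0 →
        (∀ t, MeasurePreserving (translate t) μ μ) →
        ∀ᵐ T ∂μ, (fibre (hull T₀) T).encard = r :=
  W.crc_main n σ M hM hprim c hc ℓ hℓ heig hint hpisot T₀ htil hfix hmin hrank

end Pool.Agent.Results.MP_4168de_an.CoincidenceRank
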