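import Pool.Agent.Mg.F4168de.G5fb391

/-! The homological Pisot conjecture: unimodular matrix or unit dilatation. -/

namespace Pool.Agent.Results.MP_4168de_an.UnitForm

open MeasureTheory Pool.Agent.MP_4168de_an

theorem result (n : ℕ) (σ : Fin n → List (Fin n)) (M : Matrix (Fin n) (Fin n) ℤ)
    (hM : ∀ i j, M i j = (σ j).count i) (hprim : M.IsPrimitive)
    (c : ℝ) (hc : 1 < c) (ℓ : Fin n → ℝ) (hℓ : ∀ i, 0 < ℓ i)
    (heig : ∀ j, ∑ i, ℓ i * M i j = c * ℓ j)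
    (hint : IsIntegral ℤ c) (hpisot : ∀ z ∈ (minpoly ℚ c).aroots ℂ, z ≠ c → ‖z‖ < 1)
    (hunit : M.det = 1 ∨ M.det = -1 ∨ IsIntegral ℤ c⁻¹)
    (T₀ : Patch (Fin n)) (htil : IsTiling ℓ T₀) (hfix : ∃ k, 0 < k ∧ (inflate σ ℓ c)^[k] T₀ = T₀)
    (hnp : ∀ t, translate t T₀ = T₀ → t = 0)
    (hrank : cechRank (hull T₀) = (minpoly ℚ c).natDegree)
    (μ : Measure (Patch (Fin n))) [IsProbabilityMeasure μ] (hμ : μ (hull T₀)ᶜ = 0)
    (hinv : ∀ t, MeasurePreserving (translate t) μ μ) : PurePoint μ :=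
  G.unit_main n σ M hM hprim c hc ℓ hℓ heig hint hpisot hunit T₀ htil hfix hnp hrank μ hμ hinv

end Pool.Agent.Results.MP_4168de_an.UnitForm
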